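import Pool.Agent.H64.LB.Targets

/-!
# Rational cohomology is the dual of rational homology (module L-COH)
-/

set_option autoImplicit false

open Topology Set
open Pool.Agent.H59

namespace Pool.Agent.H2.LB

open Pool.Agent.H64.LB

/-- a cochain as a functional on chains -/
noncomputable def ev (n : ℕ) (Y : Type) [TopologicalSpace Y] :
    (Smp n Y → ℚ) ≃ₗ[ℚ] (Ch ℚ n Y →ₗ[ℚ] ℚ) :=
  Finsupp.llift ℚ ℚ ℚ (Smp n Y)

variable {Y Y' : Type} [TopologicalSpace Y] [TopologicalSpace Y']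

theorem ev_single (n : ℕ) (c : Smp n Y → ℚ) (s : Smp n Y) (r : ℚ) :
    ev n Y c (Finsupp.single s r) = r * c s := by
  unfold ev
  rw [Finsupp.llift_apply, Finsupp.lift_apply, Finsupp.sum_single_index]
  · rfl
  · simp

theorem ev_cobd (n : ℕ) (c : Smp n Y → ℚ) : ev (n + 1) Y (cobd n Y c) =
    (ev n Y c).comp (bd ℚ n Y) := by
  refine Finsupp.lhom_ext' fun s => LinearMap.ext_ring ?_
  simp only [LinearMap.comp_apply, Finsupp.lsingle_apply]
  rw [ev_single, bd_single, one_smul, map_sum, one_mul]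
  change ∑ i : Fin (n + 1), (-1 : ℚ) ^ (i : ℕ) * c (fc s i) = _
  refine Finset.sum_congr rfl fun i _ => ?_
  rw [map_smul, ev_single, one_mul, smul_eq_mul]

theorem ev_pbQ (n : ℕ) (f : C(Y, Y')) (c : Smp n Y' → ℚ) :
    ev n Y (pbQ n f c) = (ev n Y' c).comp (pf ℚ n f) := by
  refine Finsupp.lhom_ext' fun s => LinearMap.ext_ring ?_
  simp only [LinearMap.comp_apply, Finsupp.lsingle_apply]
  rw [ev_single, pf_single, ev_single]
  rfl

theorem ev_bd_zero {k : ℕ} {c : Smp (k + 1) Y → ℚ} (hc : c ∈ ZQ k Y) (w : Ch ℚ (k + 2) Y) :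
    ev (k + 1) Y c (bd ℚ (k + 1) Y w) = 0 := by
  have h : cobd (k + 1) Y c = 0 := hc
  have h2 := ev_cobd (k + 1) c
  rw [h, map_zero] at h2
  have h3 := LinearMap.congr_fun h2 w
  rw [LinearMap.comp_apply] at h3
  exact h3.symm

theorem ev_BQ {k : ℕ} {c : Smp (k + 1) Y → ℚ} (hc : c ∈ BQ k Y) {z : Ch ℚ (k + 1) Y}
    (hz : z ∈ ZZ ℚ k Y) : ev (k + 1) Y c z = 0 := by
  cases k with
  | zero =>
    have h : c = 0 := hc
    rw [h, map_zero]
    rfl
  | succ k =>
    obtain ⟨d, rfl⟩ := hc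
    rw [mem_ZZ_succ] at hz
    rw [ev_cobd, LinearMap.comp_apply, hz, map_zero]

/-- the functional on homology defined by a cocycle -/
noncomputable def pre0 (k : ℕ) (Y : Type) [TopologicalSpace Y] (c : ZQ k Y) :
    HH ℚ k Y →ₗ[ℚ] ℚ :=
  Submodule.liftQ ((BB ℚ k Y).submoduleOf (ZZ ℚ k Y))
    ((ev (k + 1) Y c.1).comp (ZZ ℚ k Y).subtype) (by
      rintro ⟨x, hx⟩ ⟨y, hy⟩
      change ev (k + 1) Y c.1 x = 0
      have hy' : bd ℚ (k + 1) Y y = x := hy
      rw [← hy']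
      exact ev_bd_zero c.2 y)

theorem pre0_mk (k : ℕ) (c : ZQ k Y) (z : ZZ ℚ k Y) :
    pre0 k Y c (HH.mk ℚ k Y z) = ev (k + 1) Y c.1 z.1 := rfl

noncomputable def pre (k : ℕ) (Y : Type) [TopologicalSpace Y] :
    ZQ k Y →ₗ[ℚ] Module.Dual ℚ (HH ℚ k Y) where
  toFun c := pre0 k Y c
  map_add' c d := by
    refine LinearMap.ext fun z => ?_
    induction z using HH.ind with
    | h x =>
      rw [LinearMap.add_apply, pre0_mk, pre0_mk, pre0_mk]
      have : (c + d).1 = c.1 + d.1 := rfl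
      rw [this, map_add, LinearMap.add_apply]
  map_smul' r c := by
    refine LinearMap.ext fun z => ?_
    induction z using HH.ind with
    | h x =>
      rw [RingHom.id_apply, LinearMap.smul_apply, pre0_mk, pre0_mk]
      have : (r • c).1 = r • c.1 := rfl
      rw [this, map_smul, LinearMap.smul_apply]

/-- the pairing of cohomology and homology -/
noncomputable def coh (k : ℕ) (Y : Type) [TopologicalSpace Y] :
    HQ k Y →ₗ[ℚ] Module.Dual ℚ (HH ℚ k Y) :=
  Submodule.liftQ ((BQ k Y).submoduleOf (ZQ k Y)) (pre k Y) (by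
    rintro ⟨c, hc⟩ hc2
    have hc3 : c ∈ BQ k Y := hc2
    rw [LinearMap.mem_ker]
    refine LinearMap.ext fun z => ?_
    induction z using HH.ind with
    | h x =>
      rw [LinearMap.zero_apply]
      exact ev_BQ hc3 x.2)

/-- the class of a cocycle -/
noncomputable def mkQ' (k : ℕ) (Y : Type) [TopologicalSpace Y] : ZQ k Y →ₗ[ℚ] HQ k Y :=
  Submodule.mkQ ((BQ k Y).submoduleOf (ZQ k Y))

theorem coh_mk (k : ℕ) (c : ZQ k Y) (z : ZZ ℚ k Y) :
    coh k Y (mkQ' k Y c) (HH.mk ℚ k Y z) = ev (k + 1) Y c.1 z.1 := rfl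

theorem HQ_ind {k : ℕ} {P : HQ k Y → Prop} (h : ∀ c : ZQ k Y, P (mkQ' k Y c)) (z : HQ k Y) :
    P z := by
  obtain ⟨x, rfl⟩ := Submodule.mkQ_surjective ((BQ k Y).submoduleOf (ZQ k Y)) z
  exact h x

theorem coh_injective (k : ℕ) : Function.Injective (coh k Y) := by
  rw [injective_iff_map_eq_zero]
  intro z
  induction z using HQ_ind with
  | h c =>
    intro hz
    have h1 : ∀ x : Ch ℚ (k + 1) Y, x ∈ ZZ ℚ k Y → ev (k + 1) Y c.1 x = 0 := by
      intro x hx
      have := LinearMap.congr_fun hz (HH.mk ℚ k Y ⟨x, hx⟩)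
      rw [coh_mk, LinearMap.zero_apply] at this
      exact this
    have h2 : c.1 ∈ BQ k Y := by
      cases k with
      | zero =>
        have h3 : ev 1 Y c.1 = 0 := LinearMap.ext fun x => h1 x (mem_ZZ_zero ℚ x)
        rw [LinearEquiv.map_eq_zero_iff] at h3
        exact h3
      | succ k =>
        have h3 : ev (k + 2) Y c.1 ∈ (LinearMap.ker (bd ℚ (k + 1) Y)).dualAnnihilator := by
          rw [Submodule.mem_dualAnnihilator]
          intro x hx
          exact h1 x ((mem_ZZ_succ ℚ).2 (LinearMap.mem_ker.1 hx))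
        rw [← LinearMap.range_dualMap_eq_dualAnnihilator_ker] at h3
        obtain ⟨g, hg⟩ := h3
        refine ⟨(ev (k + 1) Y).symm g, ?_⟩
        refine (ev (k + 2) Y).injective ?_
        rw [ev_cobd, LinearEquiv.apply_symm_apply]
        exact hg
    exact (Submodule.Quotient.mk_eq_zero ((BQ k Y).submoduleOf (ZQ k Y))).2 h2

theorem coh_surjective (k : ℕ) : Function.Surjective (coh k Y) := by
  intro ψ
  obtain ⟨g, hg⟩ := LinearMap.exists_extend (ψ.comp (HH.mk ℚ k Y))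
  have hg' : ∀ z : ZZ ℚ k Y, g z.1 = ψ (HH.mk ℚ k Y z) := fun z => LinearMap.congr_fun hg z
  have hc : (ev (k + 1) Y).symm g ∈ ZQ k Y := by
    change cobd (k + 1) Y _ = 0
    refine (ev (k + 2) Y).injective ?_
    rw [ev_cobd, LinearEquiv.apply_symm_apply, map_zero]
    refine LinearMap.ext fun w => ?_
    rw [LinearMap.comp_apply, LinearMap.zero_apply]
    have hw : bd ℚ (k + 1) Y w ∈ ZZ ℚ k Y := BB_le_ZZ ℚ k ⟨w, rfl⟩
    have h1 := hg' ⟨_, hw⟩
    have h2 : HH.mk ℚ k Y ⟨bd ℚ (k + 1) Y w, hw⟩ = 0 := (HH.mk_eq_zero_iff ℚ _).2 ⟨w, rfl⟩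
    rw [h2, map_zero] at h1
    exact h1
  refine ⟨mkQ' k Y ⟨_, hc⟩, LinearMap.ext fun z => ?_⟩
  induction z using HH.ind with
  | h x =>
    rw [coh_mk, ← hg' x]
    change ev (k + 1) Y ((ev (k + 1) Y).symm g) x.1 = _
    rw [LinearEquiv.apply_symm_apply]

theorem coh_thm : T_COH := by
  refine ⟨fun k Y _ => LinearEquiv.ofBijective (coh k Y) ⟨coh_injective k, coh_surjective k⟩,
    fun k Y Y' _ _ f z => ?_⟩
  rw [LinearEquiv.ofBijective_apply, LinearEquiv.ofBijective_apply]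
  induction z using HQ_ind with
  | h c =>
    refine LinearMap.ext fun x => ?_
    induction x using HH.ind with
    | h x =>
      change ev (k + 1) Y (pbQ (k + 1) f c.1) x.1 = ev (k + 1) Y' c.1 (pf ℚ (k + 1) f x.1)
      rw [ev_pbQ]
      rfl

end Pool.Agent.H2.LB
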