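import Pool.Agent.H64.LB.Targets

/-!
# Mixed Hodge structures (modules L-HDN, L-HDF)
-/

set_option autoImplicit false

open Topology Set
open scoped TensorProduct

namespace Pool.Agent.H2.LB

open Pool.Agent.H64.LB

section

variable {P H : Type} [AddCommGroup P] [Module ℚ P] [AddCommGroup H] [Module ℚ H]

/-- `1 ⊗ h ∈ W_ℂ` implies `h ∈ W` -/
theorem mem_of_baseChange (W : Submodule ℚ H) {h : H}
    (hh : (1 : ℂ) ⊗ₜ[ℚ] h ∈ W.baseChange ℂ) : h ∈ W := by
  have h1 : W.baseChange ℂ ≤ LinearMap.ker (W.mkQ.baseChange ℂ) := by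
    rw [Submodule.baseChange_eq_span, Submodule.span_le]
    rintro _ ⟨w, hw, rfl⟩
    simp only [TensorProduct.mk_apply, SetLike.mem_coe, LinearMap.mem_ker,
      LinearMap.baseChange_tmul]
    have : W.mkQ w = 0 := by
      rw [Submodule.mkQ_apply, Submodule.Quotient.mk_eq_zero]
      exact hw
    rw [this, TensorProduct.tmul_zero]
  have h2 := h1 hh
  rw [LinearMap.mem_ker, LinearMap.baseChange_tmul] at h2
  have h3 : Function.Injective (TensorProduct.mk ℚ ℂ (H ⧸ W) 1) :=
    Module.FaithfullyFlat.tensorProduct_mk_injective (A := ℚ) (B := ℂ) (H ⧸ W)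
  have h4 : W.mkQ h = 0 := by
    apply h3
    rw [TensorProduct.mk_apply, TensorProduct.mk_apply, h2, TensorProduct.tmul_zero]
  rwa [Submodule.mkQ_apply, Submodule.Quotient.mk_eq_zero] at h4

theorem baseChange_mono {W W' : Submodule ℚ H} (h : W ≤ W') :
    W.baseChange ℂ ≤ W'.baseChange ℂ := by
  rw [Submodule.baseChange_eq_span, Submodule.baseChange_eq_span]
  exact Submodule.span_mono (Submodule.map_mono h)

theorem le_of_baseChange_le {W W' : Submodule ℚ H} (h : W.baseChange ℂ ≤ W'.baseChange ℂ) :
    W ≤ W' := by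
  intro x hx
  exact mem_of_baseChange W' (h (Submodule.tmul_mem_baseChange_of_mem 1 hx))

theorem baseChange_mem {f : P →ₗ[ℚ] H} {W : Submodule ℚ H} (h : ∀ x, f x ∈ W)
    (z : ℂ ⊗[ℚ] P) : f.baseChange ℂ z ∈ W.baseChange ℂ := by
  induction z using TensorProduct.induction_on with
  | zero =>
    rw [map_zero]
    exact Submodule.zero_mem _
  | tmul c x =>
    rw [LinearMap.baseChange_tmul]
    exact Submodule.tmul_mem_baseChange_of_mem c (h x)
  | add x y hx hy =>
    rw [map_add]
    exact Submodule.add_mem _ hx hy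

theorem cj_tmul (c : ℂ) (x : H) : cj H (c ⊗ₜ[ℚ] x) = (starRingEnd ℂ c) ⊗ₜ[ℚ] x := rfl

theorem cj_baseChange (f : P →ₗ[ℚ] H) (z : ℂ ⊗[ℚ] P) :
    f.baseChange ℂ (cj P z) = cj H (f.baseChange ℂ z) := by
  induction z using TensorProduct.induction_on with
  | zero => simp only [map_zero]
  | tmul c x => rw [cj_tmul, LinearMap.baseChange_tmul, LinearMap.baseChange_tmul, cj_tmul]
  | add x y hx hy => rw [map_add, map_add, hx, hy, map_add, map_add]

end

theorem hdn : T_HDN := by
  intro P H _ _ _ _ MP MH f k hf hW1 hW2 hf0 hEq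
  have hP1 : ∀ x, f x ∈ MH.W (k - 1) := by
    intro x
    rw [hEq]
    exact hf.1 k x (by rw [hW2]; exact Submodule.mem_top)
  -- the step
  have step : ∀ j : ℤ, j ≤ k - 1 → (∀ x, f x ∈ MH.W j) → ∀ x, f x ∈ MH.W (j - 1) := by
    intro j hj hPj
    obtain ⟨b, hb⟩ := MP.F_bot
    obtain ⟨a, ha⟩ := MP.F_top
    have claim : ∀ n : ℕ, ∀ x ∈ MP.F (b - n), f.baseChange ℂ x ∈ (MH.W (j - 1)).baseChange ℂ := by
      intro n
      induction n with
      | zero =>
        intro x hx
        rw [Nat.cast_zero, sub_zero, hb, Submodule.mem_bot] at hx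
        rw [hx, map_zero]
        exact Submodule.zero_mem _
      | succ n ih =>
        intro x hx
        set p : ℤ := b - ((n + 1 : ℕ) : ℤ) with hp
        have hp1 : p + 1 = b - (n : ℤ) := by
          rw [hp]
          push_cast
          ring
        have hs := MP.sup_eq k (p + 1)
        rw [hW1, hW2, Submodule.baseChange_bot, Submodule.baseChange_top, inf_top_eq, inf_top_eq,
          sup_bot_eq, sup_bot_eq, show k + 1 - (p + 1) = k - p by ring] at hs
        have hx2 : x ∈ MP.F (p + 1) ⊔ conjSub (MP.F (k - p)) := by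
          rw [hs]
          exact Submodule.mem_top
        obtain ⟨y, hy, z, hz, hyz⟩ := Submodule.mem_sup.1 hx2
        have hzp : z ∈ MP.F p := by
          have : z = x - y := by rw [← hyz]; abel
          rw [this]
          exact Submodule.sub_mem _ hx (MP.F_anti (by linarith) hy)
        have hfy : f.baseChange ℂ y ∈ (MH.W (j - 1)).baseChange ℂ := by
          rw [hp1] at hy
          exact ih y hy
        have hfz : f.baseChange ℂ z ∈ (MH.W (j - 1)).baseChange ℂ := by
          rw [← MH.inf_eq j p]
          obtain ⟨z', hz', rfl⟩ := hz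
          refine ⟨?_, ?_⟩
          · refine Submodule.mem_sup_left ⟨hf.2 p _ hzp, baseChange_mem hPj _⟩
          · refine ⟨f.baseChange ℂ z', ?_, ?_⟩
            · refine Submodule.mem_sup_left ⟨?_, baseChange_mem hPj _⟩
              exact MH.F_anti (by linarith : j + 1 - p ≤ k - p) (hf.2 (k - p) z' hz')
            · exact (cj_baseChange f z').symm
        rw [← hyz, map_add]
        exact Submodule.add_mem _ hfy hfz
    have htop : MP.F (min a b) = ⊤ := by
      rw [eq_top_iff, ← ha]
      exact MP.F_anti (min_le_left _ _)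
    intro x
    refine mem_of_baseChange _ ?_
    have h1 := claim (b - min a b).toNat ((1 : ℂ) ⊗ₜ[ℚ] x) (by
      rw [Int.toNat_of_nonneg (by have := min_le_right a b; linarith),
        show b - (b - min a b) = min a b by ring, htop]
      exact Submodule.mem_top)
    rw [LinearMap.baseChange_tmul] at h1
    exact h1
  have all : ∀ n : ℕ, ∀ x, f x ∈ MH.W (k - 1 - n) := by
    intro n
    induction n with
    | zero => simpa using hP1
    | succ n ih =>
      have := step (k - 1 - n) (by have : (0 : ℤ) ≤ n := Int.natCast_nonneg n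
                                   linarith) ih
      intro x
      have h2 := this x
      rw [show k - 1 - ((n + 1 : ℕ) : ℤ) = k - 1 - n - 1 by push_cast; ring]
      exact h2
  obtain ⟨a, ha⟩ := MH.W_bot
  refine hf0 (LinearMap.ext fun x => ?_)
  have h1 := all (k - 1 - min a (k - 1)).toNat x
  rw [Int.toNat_of_nonneg (by have := min_le_right a (k - 1); linarith),
    show k - 1 - (k - 1 - min a (k - 1)) = min a (k - 1) by ring] at h1
  have h2 := MH.W_mono (min_le_left a (k - 1)) h1
  rw [ha, Submodule.mem_bot] at h2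
  rw [h2, LinearMap.zero_apply]

theorem hdf : T_HDF := by
  intro H _ _ _ M k hne
  by_contra hc
  push Not at hc
  have hstep : ∀ p : ℤ, M.FW k p ≤ M.FW k (p + 1) := by
    intro p
    have h1 := hc p (k - p) (by ring)
    unfold MHS.h at h1
    rw [show p + (k - p) = k by ring] at h1
    rw [Module.finrank_eq_zero_iff_of_free, Submodule.Quotient.subsingleton_iff] at h1
    intro x hx
    have h2 : (⟨x, hx⟩ : M.FW k p) ∈ (M.FW k (p + 1)).submoduleOf (M.FW k p) := by
      rw [h1]
      exact Submodule.mem_top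
    exact h2
  have hall : ∀ (n : ℕ) (p : ℤ), M.FW k p ≤ M.FW k (p + n) := by
    intro n
    induction n with
    | zero =>
      intro p
      simp
    | succ n ih =>
      intro p
      refine (ih p).trans ?_
      have := hstep (p + n)
      rw [show p + ((n + 1 : ℕ) : ℤ) = p + n + 1 by push_cast; ring]
      exact this
  obtain ⟨a, ha⟩ := M.F_top
  obtain ⟨b, hb⟩ := M.F_bot
  have htop : M.F (min a b) = ⊤ := by
    rw [eq_top_iff, ← ha]
    exact M.F_anti (min_le_left _ _)
  have h1 := hall (b - min a b).toNat (min a b)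
  rw [Int.toNat_of_nonneg (by have := min_le_right a b; linarith),
    show min a b + (b - min a b) = b by ring] at h1
  have h2 : M.FW k (min a b) = (M.W k).baseChange ℂ ⊔ (M.W (k - 1)).baseChange ℂ := by
    unfold MHS.FW
    rw [htop, top_inf_eq]
  have h3 : M.FW k b = (M.W (k - 1)).baseChange ℂ := by
    unfold MHS.FW
    rw [hb, bot_inf_eq, bot_sup_eq]
  rw [h2, h3] at h1
  have h4 : (M.W k).baseChange ℂ ≤ (M.W (k - 1)).baseChange ℂ := le_sup_left.trans h1
  exact hne (le_antisymm (M.W_mono (by linarith)) (le_of_baseChange_le h4))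

end Pool.Agent.H2.LB
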