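import Pool.Agent.H64.LB.Targets
import Pool.Agent.H48.SP.PF

/-!
# Rational ellipticity is invariant under homeomorphisms (module L-REH)
-/

set_option autoImplicit false

open Topology Set
open Pool.Agent.H59
open scoped TensorProduct

namespace Pool.Agent.H2.LB

open Pool.Agent.H64.LB
open Pool.Agent.H93.SPB (hcl)

theorem HQmap_id {k : ℕ} {Y : Type} [TopologicalSpace Y] (z : HQ k Y) :
    HQ.map k (ContinuousMap.id Y) z = z := by
  obtain ⟨x, rfl⟩ := Submodule.mkQ_surjective ((BQ k Y).submoduleOf (ZQ k Y)) z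
  rfl

theorem HQmap_comp {k : ℕ} {Y Y' Y'' : Type} [TopologicalSpace Y] [TopologicalSpace Y']
    [TopologicalSpace Y''] (f : C(Y, Y')) (g : C(Y', Y'')) (z : HQ k Y'') :
    HQ.map k (g.comp f) z = HQ.map k f (HQ.map k g z) := by
  obtain ⟨x, rfl⟩ := Submodule.mkQ_surjective ((BQ k Y'').submoduleOf (ZQ k Y'')) z
  rfl

/-- homeomorphic spaces have isomorphic cohomology -/
noncomputable def HQequiv (k : ℕ) {X Y : Type} [TopologicalSpace X] [TopologicalSpace Y]
    (e : X ≃ₜ Y) : HQ k X ≃ₗ[ℚ] HQ k Y :=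
  LinearEquiv.ofLinear (HQ.map k (e.symm : C(Y, X))) (HQ.map k (e : C(X, Y)))
    (LinearMap.ext fun z => by
      rw [LinearMap.comp_apply, ← HQmap_comp, Homeomorph.toContinuousMap_comp_symm]
      exact HQmap_id z)
    (LinearMap.ext fun z => by
      rw [LinearMap.comp_apply, ← HQmap_comp, Homeomorph.symm_comp_toContinuousMap]
      exact HQmap_id z)

/-- push-forward of loops -/
def pushLoop {X Y : Type} [TopologicalSpace X] [TopologicalSpace Y] {k : ℕ} {x : X} {y : Y}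
    (f : C(X, Y)) (h : f x = y) (p : GenLoop (Fin k) X x) : GenLoop (Fin k) Y y :=
  ⟨f.comp p.1, fun t ht => by
    rw [ContinuousMap.comp_apply]
    have := p.2 t ht
    rw [this, h]⟩

/-- homeomorphic spaces have isomorphic homotopy groups -/
theorem piEquiv {X Y : Type} [TopologicalSpace X] [TopologicalSpace Y] (e : X ≃ₜ Y) (y : Y)
    (k : ℕ) : Nonempty (HomotopyGroup.Pi (k + 2) X (e.symm y) ≃*
      HomotopyGroup.Pi (k + 2) Y y) := by
  obtain ⟨F, hF⟩ := Pool.Agent.H48.SP.PF.pf X Y (e : C(X, Y)) (e.symm y) y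
    (e.apply_symm_apply y) (k + 1)
  obtain ⟨G, hG⟩ := Pool.Agent.H48.SP.PF.pf Y X (e.symm : C(Y, X)) y (e.symm y) rfl (k + 1)
  refine ⟨MonoidHom.toMulEquiv F G ?_ ?_⟩
  · refine MonoidHom.ext fun z => ?_
    obtain ⟨p, rfl⟩ := Quotient.exists_rep z
    have h1 := hF p (pushLoop (e : C(X, Y)) (e.apply_symm_apply y) p) (fun _ => rfl)
    have h2 := hG (pushLoop (e : C(X, Y)) (e.apply_symm_apply y) p) p
      (fun t => (e.symm_apply_apply (p t)).symm)
    rw [MonoidHom.comp_apply, MonoidHom.id_apply]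
    exact (congrArg G h1).trans h2
  · refine MonoidHom.ext fun z => ?_
    obtain ⟨p, rfl⟩ := Quotient.exists_rep z
    have h1 := hG p (pushLoop (e.symm : C(Y, X)) rfl p) (fun _ => rfl)
    have h2 := hF (pushLoop (e.symm : C(Y, X)) rfl p) p
      (fun t => (e.apply_symm_apply (p t)).symm)
    rw [MonoidHom.comp_apply, MonoidHom.id_apply]
    exact (congrArg F h1).trans h2

theorem piTensor {X Y : Type} [TopologicalSpace X] [TopologicalSpace Y] (e : X ≃ₜ Y) (y : Y)
    (k : ℕ) : Nonempty ((ℚ ⊗[ℤ] Additive (HomotopyGroup.Pi (k + 2) X (e.symm y))) ≃ₗ[ℚ]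
      (ℚ ⊗[ℤ] Additive (HomotopyGroup.Pi (k + 2) Y y))) := by
  obtain ⟨f⟩ := piEquiv e y k
  have g : Additive (HomotopyGroup.Pi (k + 2) X (e.symm y)) ≃+
      Additive (HomotopyGroup.Pi (k + 2) Y y) := MulEquiv.toAdditive f
  exact ⟨LinearEquiv.baseChange ℤ ℚ _ _ g.toIntLinearEquiv⟩

theorem reh : T_REH := by
  rintro X Y _ _ ⟨e⟩ ⟨h1, ⟨h2, K, h3⟩, h4⟩
  refine ⟨?_, ⟨fun k => ?_, K, fun k hk => ?_⟩, fun y => ⟨fun k => ?_, ?_⟩⟩
  · haveI := h1
    exact e.symm.toHomotopyEquiv.simplyConnectedSpace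
  · haveI := h2 k
    exact Module.Finite.equiv (HQequiv k e)
  · haveI := h3 k hk
    exact (HQequiv k e).symm.toEquiv.subsingleton
  · obtain ⟨f⟩ := piTensor e y k
    haveI := (h4 (e.symm y)).1 k
    exact Module.Finite.equiv f
  · obtain ⟨K', hK'⟩ := (h4 (e.symm y)).2
    refine ⟨K', fun k hk => ?_⟩
    obtain ⟨f⟩ := piTensor e y k
    haveI := hK' k hk
    exact f.symm.toEquiv.subsingleton

end Pool.Agent.H2.LB
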